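import Mathlib
import Pool.Agent.W117.GH.Stm

/-!
# Project GH: elementary consequences of the integral equation
-/

set_option autoImplicit false

open MeasureTheory Filter Topology Set

namespace Pool.Agent.W125.GH

open Pool.Agent.W117.GH

theorem fa_cont (a : ℝ) : Continuous (fa a) := by
  unfold fa
  fun_prop

theorem fa_pos (a u : ℝ) (hu : u < 0) : 0 < fa a u := by
  unfold fa
  have : Real.exp u < 1 := by rw [← Real.exp_zero]; exact Real.exp_lt_exp.mpr hu
  have h2 := Real.exp_pos (a * (u - Real.exp u))
  exact mul_pos h2 (by linarith)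

/-- the mean of a continuous function over `[0, x]` -/
noncomputable def mn (φ : ℝ → ℝ) (x : ℝ) : ℝ := ∫ θ in (0:ℝ)..1, φ (θ * x)

theorem mn_cont {φ : ℝ → ℝ} (hφ : Continuous φ) : Continuous (mn φ) := by
  unfold mn
  apply intervalIntegral.continuous_parametric_intervalIntegral_of_continuous' (a₀ := 0) (b₀ := 1)
  exact hφ.comp (continuous_snd.mul continuous_fst)

theorem mul_mn (φ : ℝ → ℝ) (x : ℝ) : x * mn φ x = ∫ s in (0:ℝ)..x, φ s := by
  unfold mn
  have := intervalIntegral.mul_integral_comp_mul_right (f := φ) (a := 0) (b := 1) x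
  rw [zero_mul, one_mul] at this
  exact this

theorem el : PropEL := by
  intro a h0 h ha hS _
  obtain ⟨hc, hI⟩ := hS
  set φ : ℝ → ℝ := fun s => -(1 / 4) * fa a (h s) with hφ
  have hφc : Continuous φ := continuous_const.mul ((fa_cont a).comp hc)
  have hr : Continuous (mn φ) := mn_cont hφc
  have hI' : ∀ x, h x = h0 + ∫ t in (0:ℝ)..x, mn φ t := hI
  have hd : ∀ x, HasDerivAt h (mn φ x) x := by
    intro x
    have h1 := ((hr.integral_hasStrictDerivAt 0 x).hasDerivAt).const_add h0
    have h2 : h = fun x => h0 + ∫ t in (0:ℝ)..x, mn φ t := funext hI'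
    rw [h2]
    exact h1
  have h00 : h 0 = h0 := by rw [hI' 0]; simp
  have hW : ∀ x, x * deriv h x = ∫ s in (0:ℝ)..x, φ s := by
    intro x
    rw [(hd x).deriv, mul_mn]
  refine ⟨h00, ?_, ?_⟩
  · intro x
    have h1 : (fun x => x * deriv h x) = fun x => ∫ s in (0:ℝ)..x, φ s := funext hW
    rw [h1]
    exact (hφc.integral_hasStrictDerivAt 0 x).hasDerivAt
  · intro hneg
    -- negativity of the mean
    have hmn : ∀ x, 0 ≤ x → (∀ s, 0 ≤ s → s ≤ x → s < x ∨ x = 0 → h s < 0) → mn φ x < 0 := by
      intro x hx hs
      have h1 : 0 < ∫ θ in (0:ℝ)..1, -φ (θ * x) := by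
        apply intervalIntegral.intervalIntegral_pos_of_pos_on
        · exact (hφc.comp (continuous_id.mul continuous_const)).neg.intervalIntegrable _ _
        · intro θ hθ
          have h2 : h (θ * x) < 0 := by
            apply hs
            · exact mul_nonneg hθ.1.le hx
            · nlinarith [hθ.2]
            · rcases hx.eq_or_lt with h3 | h3
              · right; exact h3.symm
              · left; nlinarith [hθ.2]
          have h3 := fa_pos a _ h2
          show 0 < -(-(1 / 4) * fa a (h (θ * x)))
          linarith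
        · norm_num
      rw [intervalIntegral.integral_neg] at h1
      unfold mn
      linarith
    have hall : ∀ x, 0 ≤ x → h x < 0 := by
      by_contra hcon
      push Not at hcon
      obtain ⟨x2, hx2, hx2'⟩ := hcon
      set T : Set ℝ := {x | 0 ≤ x ∧ 0 ≤ h x} with hT
      have hTc : IsClosed T := (isClosed_le continuous_const continuous_id).inter
        (isClosed_le continuous_const hc)
      have hTb : BddBelow T := ⟨0, fun x hx => hx.1⟩
      have hTn : T.Nonempty := ⟨x2, hx2, hx2'⟩
      have hm := hTc.csInf_mem hTn hTb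
      set x1 := sInf T with hx1
      have hx10 : 0 < x1 := by
        rcases hm.1.eq_or_lt with h1 | h1
        · have := hm.2
          rw [← h1, h00] at this
          linarith
        · exact h1
      have hbelow : ∀ s, 0 ≤ s → s < x1 → h s < 0 := by
        intro s hs hs1
        by_contra h1
        push Not at h1
        have : x1 ≤ s := csInf_le hTb ⟨hs, h1⟩
        linarith
      have hanti : AntitoneOn h (Icc 0 x1) := by
        apply antitoneOn_of_deriv_nonpos (convex_Icc _ _) hc.continuousOn
        · intro x _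
          exact (hd x).differentiableAt.differentiableWithinAt
        · intro x hx
          rw [interior_Icc] at hx
          rw [(hd x).deriv]
          exact (hmn x hx.1.le (fun s hs hs' _ => hbelow s hs (by linarith [hx.2]))).le
      have h1 := hanti (left_mem_Icc.mpr hx10.le) (right_mem_Icc.mpr hx10.le) hx10.le
      rw [h00] at h1
      have := hm.2
      linarith
    have hder : ∀ x, 0 ≤ x → mn φ x < 0 := fun x hx => hmn x hx (fun s hs _ _ => hall s hs)
    intro x hx
    refine ⟨hall x hx, ?_, ?_⟩
    · have hanti : AntitoneOn h (Ici 0) := by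
        apply antitoneOn_of_deriv_nonpos (convex_Ici _) hc.continuousOn
        · intro x _
          exact (hd x).differentiableAt.differentiableWithinAt
        · intro x hx
          rw [interior_Ici] at hx
          rw [(hd x).deriv]
          exact (hder x (le_of_lt hx)).le
      have h1 := hanti (mem_Ici.mpr le_rfl) (mem_Ici.mpr hx) hx
      rwa [h00] at h1
    · rw [(hd x).deriv]
      exact hder x hx

theorem ie : PropIE := by
  intro F δ g0 g hF hδ hg hW hg0 hW0 h0 y hy
  rcases hy.1.eq_or_lt with h1 | h1
  · rw [← h1, h0]; simp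
  obtain ⟨y1, hy1, hy1'⟩ := exists_between hy.2
  have hy10 : 0 ≤ y1 := by linarith
  have hgc : ContinuousOn g (Icc 0 y1) := by
    intro s hs
    rcases hs.1.eq_or_lt with h2 | h2
    · rw [← h2]
      have h3 : Tendsto g (𝓝[>] 0) (𝓝 (g 0)) := by rw [h0]; exact hg0
      have h4 : ContinuousWithinAt g (Ioi 0) 0 := h3
      have h5 : ContinuousWithinAt g (Ici 0) 0 := continuousWithinAt_Ioi_iff_Ici.mp h4
      exact h5.mono Icc_subset_Ici_self
    · exact (hg s ⟨h2, by linarith [hs.2]⟩).continuousAt.continuousWithinAt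
  set G : ℝ → ℝ := IccExtend hy10 ((Icc 0 y1).domRestrict g) with hG
  have hGc : Continuous G := (continuousOn_iff_continuous_domRestrict.mp hgc).Icc_extend'
  have hGe : ∀ s ∈ Icc 0 y1, G s = g s := by
    intro s hs
    rw [hG, IccExtend_of_mem _ _ hs]
    rfl
  set u : ℝ → ℝ := fun s => F s (G s) with hu
  have huc : Continuous u := hF.comp (continuous_id.prodMk hGc)
  have hr : Continuous (mn u) := mn_cont huc
  have hW1 : ∀ s ∈ Ioc 0 y1, deriv g s = mn u s := by
    intro s hs
    have h2 : ∫ t in (0:ℝ)..s, u t = s * deriv g s - 0 := by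
      apply intervalIntegral.integral_eq_sub_of_hasDerivAt_of_tendsto hs.1
        (f := fun y => y * deriv g y)
      · intro t ht
        have h3 := hW t ⟨ht.1, by linarith [ht.2, hs.2]⟩
        have h4 : u t = F t (g t) := by
          show F t (G t) = _
          rw [hGe t ⟨ht.1.le, by linarith [ht.2, hs.2]⟩]
        rw [h4]
        exact h3
      · exact huc.intervalIntegrable _ _
      · exact hW0
      · have h3 := (hW s ⟨hs.1, by linarith [hs.2]⟩).continuousAt
        exact h3.tendsto.mono_left nhdsWithin_le_nhds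
    rw [← mul_mn, sub_zero] at h2
    exact (mul_left_cancel₀ hs.1.ne' h2).symm
  have h2 : ∫ t in (0:ℝ)..y, mn u t = g y - g0 := by
    apply intervalIntegral.integral_eq_sub_of_hasDerivAt_of_tendsto h1 (f := g)
    · intro t ht
      rw [← hW1 t ⟨ht.1, by linarith [ht.2]⟩]
      exact (hg t ⟨ht.1, by linarith [ht.2]⟩).hasDerivAt
    · exact hr.intervalIntegrable _ _
    · exact hg0
    · exact ((hg y ⟨h1, hy.2⟩).continuousAt.tendsto).mono_left nhdsWithin_le_nhds
  have h3 : ∫ t in (0:ℝ)..y, ∫ θ in (0:ℝ)..1, F (θ * t) (g (θ * t)) =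
      ∫ t in (0:ℝ)..y, mn u t := by
    apply intervalIntegral.integral_congr
    intro t ht
    rw [uIcc_of_le h1.le] at ht
    unfold mn
    apply intervalIntegral.integral_congr
    intro θ hθ
    rw [uIcc_of_le (by norm_num : (0:ℝ) ≤ 1)] at hθ
    show F (θ * t) (g (θ * t)) = F (θ * t) (G (θ * t))
    rw [hGe]
    refine ⟨mul_nonneg hθ.1 ht.1, ?_⟩
    nlinarith [hθ.1, hθ.2, ht.1, ht.2]
  rw [h3, h2]
  ring

end Pool.Agent.W125.GH
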